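import Pool.Agent.Helper42.PW.Goals1

/-!
# Packet PW-N_CMP (passage to an extension with the same completion)
-/

set_option autoImplicit false
set_option linter.unusedSectionVars false

namespace Pool.Agent.Helper29.PW

open NumberField Polynomial Module IsDedekindDomain
open Pool.Agent.Helper42.PW

section cl

variable {p : ℕ} [Fact p.Prime] {F : Type} [Field F] [NumberField F]
  {W : HeightOneSpectrum (𝓞 F)}

theorem cl_mul {u v : F} (hu : Cl p W u) (hv : Cl p W v) : Cl p W (u * v) := by
  have e : u * v - 1 = (u - 1) * (v - 1) + ((u - 1) + (v - 1)) := by ring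
  have hm : W.valuation F ((u - 1) * (v - 1)) ≤ W.valuation F (u - 1) := by
    rw [map_mul]
    exact mul_le_of_le_one_right' hv.1.le
  have hb : W.valuation F (u * v - 1) ≤
      max (W.valuation F (u - 1)) (W.valuation F (v - 1)) := by
    rw [e]
    refine (Valuation.map_add _ _ _).trans ?_
    refine max_le (hm.trans (le_max_left _ _)) (Valuation.map_add _ _ _)
  exact ⟨hb.trans_lt (max_lt hu.1 hv.1), hb.trans (max_le hu.2 hv.2)⟩

theorem cl_one : Cl p W (1 : F) := by
  constructor
  · simp
  · simp

theorem cl_pow {u : F} (hu : Cl p W u) (n : ℕ) : Cl p W (u ^ n) := by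
  induction n with
  | zero => simpa using (cl_one (p := p) (W := W))
  | succ n ih => rw [pow_succ]; exact cl_mul ih hu

theorem ne_zero_of_cl {u : F} (hu : Cl p W u) : u ≠ 0 := by
  rintro rfl
  have h := hu.1
  rw [zero_sub, Valuation.map_neg, map_one] at h
  exact lt_irrefl _ h

theorem valp_ne : W.valuation F (p : F) ≠ 0 := by
  rw [Valuation.ne_zero_iff]
  exact_mod_cast (Fact.out : p.Prime).ne_zero

theorem valp_le : W.valuation F (p : F) ≤ 1 := by
  have h := W.valuation_le_one (K := F) (p : 𝓞 F)
  simpa using h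

/-- elements close enough to `a ≠ 0` have a quotient by `a` close to `1` -/
theorem cl_div {a b : F} (ha : a ≠ 0)
    (h : W.valuation F (b - a) ≤ W.valuation F a * (W.valuation F (p : F) ^ 3 *
      WithZero.exp (-1 : ℤ))) : Cl p W (b / a) := by
  have ha' : W.valuation F a ≠ 0 := by rwa [Valuation.ne_zero_iff]
  have e : b / a - 1 = (b - a) / a := by field_simp
  have hlt : (WithZero.exp (-1 : ℤ) : WithZero (Multiplicative ℤ)) < 1 := by
    rw [← WithZero.exp_zero, WithZero.exp_lt_exp]; norm_num
  have hq : W.valuation F (b / a - 1) ≤ W.valuation F (p : F) ^ 3 * WithZero.exp (-1 : ℤ) := by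
    rw [e, map_div₀]
    exact (div_le_iff₀ (zero_lt_iff.2 ha')).2 (by rwa [mul_comm] at h)
  have hp3 : W.valuation F (p : F) ^ 3 ≤ 1 := pow_le_one' valp_le 3
  refine ⟨hq.trans_lt ?_, hq.trans (mul_le_of_le_one_right' hlt.le)⟩
  exact (mul_le_of_le_one_left' hp3).trans_lt hlt

theorem gam_ne {a : F} (ha : a ≠ 0) : W.valuation F a * (W.valuation F (p : F) ^ 3 *
      WithZero.exp (-1 : ℤ)) ≠ 0 := by
  have ha' : W.valuation F a ≠ 0 := by rwa [Valuation.ne_zero_iff]
  exact mul_ne_zero ha' (mul_ne_zero (pow_ne_zero _ valp_ne) WithZero.exp_ne_zero)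

/-- every value `≠ 0` is at least `exp (-N)` for some `N` -/
theorem exp_small (γ : WithZero (Multiplicative ℤ)) (h : γ ≠ 0) :
    ∃ N : ℕ, (WithZero.exp (-(N : ℤ)) : WithZero (Multiplicative ℤ)) ≤ γ := by
  refine ⟨(-(WithZero.log γ)).toNat, ?_⟩
  rw [← WithZero.exp_log h, WithZero.exp_le_exp]
  have := Int.self_le_toNat (-(WithZero.log γ))
  simp only [WithZero.log_exp]
  linarith

end cl

theorem n_cmp (h1 : N_ALG) (h2 : N_CNT) : Pool.Agent.Helper42.PW.N_CMP := by
  intro p _ F F' _ _ _ _ _ W W' hval hden α x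
  have hp' : W'.valuation F' (p : F') = W.valuation F (p : F) := by
    rw [← hval]; simp
  have hcl : ∀ u : F, Cl p W' (algebraMap F F' u) ↔ Cl p W u := by
    intro u
    have e : W'.valuation F' (algebraMap F F' u - 1) = W.valuation F (u - 1) := by
      rw [← hval]; simp
    unfold Cl
    rw [e, hp']
  constructor
  · constructor
    · rintro ⟨y, hy⟩
      have hy0 : y ≠ 0 := by
        rintro rfl
        have h := ne_zero_of_cl hy
        rw [zero_pow (Fact.out : p.Prime).ne_zero, mul_zero] at h
        exact h rfl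
      obtain ⟨N, hN⟩ := exp_small _ (gam_ne (p := p) (W := W') hy0)
      obtain ⟨y₀, hy₀⟩ := hden y N
      have hc : Cl p W' (algebraMap F F' y₀ / y) := by
        refine cl_div hy0 (le_trans ?_ hN)
        rw [Valuation.map_sub_swap]; exact hy₀
      refine ⟨y₀, ?_⟩
      rw [← hcl]
      have e : algebraMap F F' (α * y₀ ^ p) =
          algebraMap F F' α * y ^ p * (algebraMap F F' y₀ / y) ^ p := by
        rw [map_mul, map_pow, div_pow]
        field_simp
      rw [e]
      exact cl_mul hy (cl_pow hc p)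
    · rintro ⟨y, hy⟩
      refine ⟨algebraMap F F' y, ?_⟩
      rw [← map_pow, ← map_mul, hcl]
      exact hy
  · constructor
    · rintro ⟨z, hz⟩
      have hn0 : nf p (algebraMap F F' α) z ≠ 0 := by
        intro h
        have h' := ne_zero_of_cl hz
        rw [h, mul_zero] at h'
        exact h' rfl
      obtain ⟨N, hN⟩ := h2 p F' W' (algebraMap F F' α) z _ (gam_ne (p := p) (W := W') hn0)
      choose z₀ hz₀ using fun j ↦ hden (z j) N
      have hcl' := hN (algebraMap F F' α) (fun j ↦ algebraMap F F' (z₀ j)) (by simp)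
        (fun j _ ↦ by rw [Valuation.map_sub_swap]; exact hz₀ j)
      have hc : Cl p W' (nf p (algebraMap F F' α) (fun j ↦ algebraMap F F' (z₀ j)) /
        nf p (algebraMap F F' α) z) := cl_div hn0 hcl'
      refine ⟨z₀, ?_⟩
      rw [← hcl, map_mul, h1.1 p F F' (algebraMap F F')]
      have e : algebraMap F F' x * nf p (algebraMap F F' α) (fun j ↦ algebraMap F F' (z₀ j)) =
          algebraMap F F' x * nf p (algebraMap F F' α) z *
          (nf p (algebraMap F F' α) (fun j ↦ algebraMap F F' (z₀ j)) /
            nf p (algebraMap F F' α) z) := by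
        field_simp
      rw [e]
      exact cl_mul hz hc
    · rintro ⟨z, hz⟩
      refine ⟨fun j ↦ algebraMap F F' (z j), ?_⟩
      rw [← h1.1 p F F' (algebraMap F F'), ← map_mul, hcl]
      exact hz

end Pool.Agent.Helper29.PW
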